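import Pool.Agent.T2h12.OM.QK
import Pool.Agent.N110.IM.Img
import Pool.Agent.N110.IM.Defs
import Pool.Agent.N110.NV.Fin
import Pool.Agent.R887.Exc

/-!
Nonvanishing for pairs which are dominated by pairs with crepant self-correspondences.
-/

set_option autoImplicit false

open FF Pool.Agent.W602.GT Pool.Agent.Y172 Pool.Agent.R887 Pool.Agent.N110 Pool.Agent.T2h12
open Pool.Agent.T2H06.DYL (IsDivisor)

namespace Pool.Agent.Results.MP_66b48b_ag.NonvanishingCorrespondences

/-- Let `X'` be a normal projective variety of dimension `n ≥ 1` with generic point `y'` and function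
field `K'`, `Δ'` a `ℚ`-divisor on `X'`, and `Ω` an algebraic extension of `K'` (for instance an
algebraic closure). Let `S` be a set, finite or infinite, of automorphisms `g` of `Ω` over `ℂ`, which
need not preserve `K'`. Every `g` is a branch of an algebraic, multi-valued self-map of `X'`: of the
irreducible correspondence `Γ_g` with the function field `K' ⊔ g K'`, with the projections `p`, `q`
to `X'` given by the inclusion of `K'` and by `g` (`OM.pr₁`, `OM.pr₂`); if `Ω` is algebraically
closed then all the irreducible correspondences which are generically finite over both factors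
occur. Suppose that all the `Γ_g` are crepant: `q^* (K_X' + Δ') ≤ p^* (K_X' + Δ')` along the divisors
which are mapped onto prime divisors of `X'` by `p`, and conversely along the divisors which are
mapped onto prime divisors of `X'` by `q` (`OM.CorrLe`); or that `Δ' = 0`, `X'` has canonical
singularities and both projections of every `Γ_g` are unramified over the prime divisors of `X'`
(`OM.Unram`). No positivity of `K_X' + Δ'` is assumed, and the singularities of `(X', Δ')` are
arbitrary, for instance log canonical.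

Suppose that the normalised degrees `q^* H · (p^* H) ^ (n - 1) / deg p` of the elements of `S` are
bounded, and that the greatest of the joint dynamical degrees `λ 0, ..., λ n` of `S`
(`OM.corrJoint`: the growth rates of the greatest of the normalised degrees
`(q^* H) ^ p · (p^* H) ^ (n - p) / deg p` of the compositions of `l` branches in `S`) is not attained
at two consecutive indices.

Let `(X, Δ)` be a pair, `Δ ≥ 0` (for instance log canonical), which is dominated by `(X', Δ')`: there
is a dominant rational map `X' ⇢ X`, generically finite, given by the homomorphism `π` of the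
function fields, such that the pull back of `K_X + Δ` is at most `K_X' + Δ'` over the prime divisors
of `X'` (for instance `X = X'`). Suppose that `K_X + Δ` is pseudo-effective and that the irregularity
of `X` is zero. Then `K_X + Δ` is effective up to `ℚ`-linear equivalence: some multiple
`m (K_X + Δ)`, `m ≥ 1`, has a section `ω ≠ 0`, and the Kodaira dimension and the numerical dimension
of `K_X + Δ` are zero, also the numerical dimension which is defined by the growth of the number of
the sections of `m (K_X + Δ) + A`. -/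
theorem result
    {K K' Ω : Type} [Field K] [Algebra ℂ K] [Field K'] [Algebra ℂ K'] [Field Ω] [Algebra ℂ Ω]
    [Algebra K' Ω] [IsScalarTower ℂ K' Ω] [Algebra.IsAlgebraic K' Ω] {N N' n : ℕ}
    {y : Fin (N + 1) → K} {y' : Fin (N' + 1) → K'} (hy : NormalModel y) (hy' : NormalModel y')
    (hn : Algebra.trdeg ℂ K = n) (hn' : Algebra.trdeg ℂ K' = n) (hn0 : 0 < n)
    {Δ' : Place ℂ K' → ℚ} (hΔ' : IsDivisor y' Δ') {S : Set (Ω ≃ₐ[ℂ] Ω)}
    (hS : (∀ g ∈ S, OM.CorrLe y' n Δ' (OM.pr₁ K' g) (OM.pr₂ K' g) ∧
        OM.CorrLe y' n Δ' (OM.pr₂ K' g) (OM.pr₁ K' g)) ∨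
      (Δ' = 0 ∧ Canonical y' n ∧
        ∀ g ∈ S, OM.Unram y' (OM.pr₁ K' g) ∧ OM.Unram y' (OM.pr₂ K' g)))
    {C : ℕ} (hC : ∀ g ∈ S, OM.corrDegree g y' n 1 ≤ C)
    (hdeg : ∀ j, j + 1 ≤ n → ∃ a ≤ 1, ∃ p ≤ n,
      OM.corrJoint S y' n (j + a) < OM.corrJoint S y' n p)
    {Δ : Place ℂ K → ℚ} (hΔ : Effective y Δ) (π : K →ₐ[ℂ] K')
    (hπ : IM.ImagePullLe π y n Δ y' Δ') (hpsef : LogPsef y n Δ) (hq : IrregularityZero y) :
    (∃ m : ℕ, 1 ≤ m ∧ ∃ ω : (Fin n → Derivation ℂ K K) → K, ω ≠ 0 ∧ IsSection y n m (m • Δ) ω) ∧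
      NumDimLt y n Δ 1 ∧ kodairaDim y n Δ = ((0 : ℕ) : WithBot ℕ) ∧
      ∀ A, Effective y A → Integral y A → numericalDim y n Δ A = ((0 : ℕ) : EReal) := by
  classical
  have hess' := hy'.ess
  have hg' : ∀ g ∈ S, OM.CorrLe y' n Δ' (OM.pr₁ K' g) (OM.pr₂ K' g) ∧
      OM.CorrLe y' n Δ' (OM.pr₂ K' g) (OM.pr₁ K' g) := by
    rcases hS with h | ⟨rfl, hcan, h⟩
    · exact h
    · intro g hgS
      have hadm := OM.corrField_adm (K := K') g
      exact ⟨OM.corrLe_canonical hy' hn' (OM.ess_M hadm) (OM.trdeg_M hn' hadm) hcan (h g hgS).1 _,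
        OM.corrLe_canonical hy' hn' (OM.ess_M hadm) (OM.trdeg_M hn' hadm) hcan (h g hgS).2 _⟩
  have h1 : NumDimLt y' n Δ' 1 := by
    by_contra hcon
    obtain ⟨j, hj, h⟩ := OM.can_joint hy' hn' hn0 hΔ' hg' hC (by omega) hcon
    obtain ⟨a, ha, p, hp, hlt⟩ := hdeg j hj
    exact absurd hlt (not_lt.2 (h a ha p hp))
  have h2 := IM.numDimLt_img hy hy' hn hn' π hπ (by omega) h1
  obtain ⟨m, hm, ω, hω0, hω⟩ := NV.nonvanishing hy hn hn0 hΔ.2 hpsef h2 hq
  exact ⟨⟨m, hm, ω, hω0, hω⟩, h2, abundance_zero hy hn hn0 hΔ h2 hm hω hω0⟩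

end Pool.Agent.Results.MP_66b48b_ag.NonvanishingCorrespondences
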