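import Pool.Agent.T2h12.NP4
import Pool.Agent.T2h12.CrepM
import Pool.Agent.N110.CanS
import Pool.Agent.N110.IM.Img
import Pool.Agent.N110.IM.Defs
import Pool.Agent.N110.NV.Fin
import Pool.Agent.N110.SE.Fin
import Pool.Agent.R887.Exc

/-!
Nonvanishing for pseudo-effective `K_X + Δ` if `(X, Δ)` is dominated by a pair with dominant rational
self-maps, not necessarily invertible, whose degrees are large.
-/

set_option autoImplicit false

open FF Pool.Agent.W602.GT Pool.Agent.Y172 Pool.Agent.R887 Pool.Agent.N110 Pool.Agent.T2h12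

namespace Pool.Agent.Results.MP_66b48b_ag.NonvanishingSelfMaps

/-- The greatest of the numbers `D 0, ..., D n` is not attained at two consecutive indices. -/
def NoPlateau (n : ℕ) (D : ℕ → ENNReal) : Prop :=
  ∀ j, j + 1 ≤ n → ∃ a ≤ 1, ∃ p ≤ n, D (j + a) < D p

/-- Let `(X', Δ')` be a projective pair of dimension `n ≥ 1`, `Δ' ≥ 0`, with generic point `y'`, and
`S` a set of dominant rational self-maps `f` of `X'`, invertible or not, given by the endomorphisms
`f^*` of the function field, such that `f^* (K_X' + Δ')` is at most `K_X' + Δ'` over the prime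
divisors of `X'`, or suppose that `Δ' = 0` and `X'` has canonical singularities (no condition on the
maps then). Suppose one of the following.

(a) `K_X' + Δ'` is nef;

(b) for all `f` in `S` the divisor `K_X' + Δ'` is also at most `f^* (K_X' + Δ')` over the divisors
over `X'` which are mapped onto prime divisors of `X'`: the maps are crepant; the singularities of
`(X', Δ')` are arbitrary, for instance log canonical, and `K_X' + Δ'` is neither assumed to be nef nor
to be effective;

(c) `(X', Δ')` is klt; `K_X' + Δ'` is neither assumed to be nef nor to be effective.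

Suppose one of the following.

(1) `S` contains commuting maps `f_1, ..., f_r` and their products, and the growth rank of this
action of `ℕ ^ r` is maximal: for `u` in `ℤ ^ r` with positive part `a` and negative part `b` the
degree `D(u)` of the correspondence `f_a ∘ f_b⁻¹` is `f_a^* H · (f_b^* H) ^ (n - 1) / deg f_b`, and
`D` grows subexponentially only along linear subspaces of `ℝ ^ r` of codimension at least `n`. For
instance `r = n` and `max (D(u), D(-u)) ≥ c exp (δ |u|)` for some `c, δ > 0`.

(2) `S` is finite, and the greatest of the joint dynamical degrees `λ 0, ..., λ n` of `S` (the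
dynamical degrees of `f`, if `S = {f}`) is not attained at two consecutive indices.

(3) `S = {f_1, ..., f_d}`, the maps are taken at random with probabilities `w i`, and the greatest of
the growth rates `λ 0, ..., λ n` of the means of exponent `s ≥ 0` of the degrees of the random products
(for `s = 0`: the exponentials of the Lyapunov exponents of the degrees) is not attained at two
consecutive indices.

Let `(X, Δ)` be any projective pair, `Δ ≥ 0` (for instance log canonical), which is dominated by
`(X', Δ')`: there is a dominant rational map `X' ⇢ X`, generically finite, given by the homomorphism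
`π` of the function fields, such that the pull back of `K_X + Δ` is at most `K_X' + Δ'` over the
prime divisors of `X'` (for instance `X = X'`, or the quotient of `X'` by a finite group, which has
nothing to do with the maps in `S`). Suppose that `K_X + Δ` is pseudo-effective and that the
irregularity of `X` is zero. Then `K_X + Δ` is effective up to `ℚ`-linear equivalence: some multiple
`m (K_X + Δ)`, `m ≥ 1`, has a section `ω ≠ 0`, and the Kodaira dimension and the numerical dimension
of `K_X + Δ` are zero, also the numerical dimension which is defined by the growth of the number of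
the sections of `m (K_X + Δ) + A`. -/
theorem result
    {K K' : Type} [Field K] [Algebra ℂ K] [Field K'] [Algebra ℂ K'] {N N' n : ℕ}
    {y : Fin (N + 1) → K} {y' : Fin (N' + 1) → K'} (hy : NormalModel y) (hy' : NormalModel y')
    (hn : Algebra.trdeg ℂ K = n) (hn' : Algebra.trdeg ℂ K' = n) (hn0 : 0 < n)
    {Δ' : Place ℂ K' → ℚ} (hΔ' : Effective y' Δ') {S : Set (K' →ₐ[ℂ] K')}
    (hP : (∀ φ ∈ S, SelfPullLe φ y' n Δ') ∨ (Δ' = 0 ∧ Canonical y' n))
    (hcase : LogNef y' n Δ' ∨ (∀ φ ∈ S, SelfPushLe φ y' n Δ') ∨ Klt y' n Δ')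
    (hmaps :
      (∃ (r : ℕ) (φ : (Fin r → ℕ) → (K' →ₐ[ℂ] K')), (∀ u v, φ (u + v) = φ u * φ v) ∧
        (∀ v, φ v ∈ S) ∧ (SE.CorrRankGe φ y' n n ∨ (n = r ∧ SE.CorrExpGrowth φ y' n))) ∨
      (S.Finite ∧ NoPlateau n (fun p => selfJointDegree S y' n p)) ∨
      (∃ (d : ℕ) (f : Fin d → (K' →ₐ[ℂ] K')) (w : Fin d → ℝ) (s : ℝ), Set.range f = S ∧
        (∀ i, 0 ≤ w i) ∧ ∑ i, w i = 1 ∧ 0 ≤ s ∧ NoPlateau n (fun p => randomDegree f w y' n s p)))
    {Δ : Place ℂ K → ℚ} (hΔ : Effective y Δ) (π : K →ₐ[ℂ] K')
    (hπ : IM.ImagePullLe π y n Δ y' Δ') (hpsef : LogPsef y n Δ) (hq : IrregularityZero y) :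
    (∃ m : ℕ, 1 ≤ m ∧ ∃ ω : (Fin n → Derivation ℂ K K) → K, ω ≠ 0 ∧ IsSection y n m (m • Δ) ω) ∧
      NumDimLt y n Δ 1 ∧ kodairaDim y n Δ = ((0 : ℕ) : WithBot ℕ) ∧
      ∀ A, Effective y A → Integral y A → numericalDim y n Δ A = ((0 : ℕ) : EReal) := by
  classical
  have hP' : ∀ φ ∈ S, SelfPullLe φ y' n Δ' := by
    rcases hP with h | ⟨rfl, hcan⟩
    · exact h
    · exact fun φ _ => selfPullLe_canonical hy' hn' hcan φ
  obtain ⟨i, hi⟩ := hy'.ne
  have hC : S.Finite → ¬ NumDimLt y' n Δ' 1 → HasC hy' hn' hi S 1 := by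
    intro hS hcon
    have hC₁ : ∀ φ ∈ S, I (eCls hy' hn' hi φ (hcls hy' hi) ::ₘ
        Multiset.replicate (n - 1) (hcls hy' hi)) ≤ hS.toFinset.sup fun ψ =>
          I (eCls hy' hn' hi ψ (hcls hy' hi) ::ₘ
            Multiset.replicate (n - 1) (hcls hy' hi)) := by
      intro φ hφ
      exact Finset.le_sup (f := fun ψ => I (eCls hy' hn' hi ψ (hcls hy' hi) ::ₘ
        Multiset.replicate (n - 1) (hcls hy' hi))) (hS.mem_toFinset.2 hφ)
    rcases hcase with h | h | hklt
    · exact hasC_num hy' hn' hn0 hi hΔ'.2 hP' (Or.inl h) hC₁ (by omega) hcon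
    · exact hasC_num hy' hn' hn0 hi hΔ'.2 hP' (Or.inr h) hC₁ (by omega) hcon
    · exact hasC_kltN hy' hn' hi hΔ' hklt hS hP' (by omega) hcon
  have h1 : NumDimLt y' n Δ' 1 := by
    rcases hmaps with ⟨r, φ, hφ, hφS, hrank⟩ | ⟨hS, hdeg⟩ | ⟨d, f, w, s, hf, hw, hw1, hs, hdeg⟩
    · have hrank' : SE.CorrRankGe φ y' n n := by
        rcases hrank with h | ⟨h1, h⟩
        · exact h
        · have h2 := SE.corrRank_of_exp h
          convert h2 using 1
      rcases hcase with h | h | hklt
      · have h2 := (SE.semi_main SE.stmSJ SE.stmSG SE.stmSD hy' hn' hn0 hΔ'.2 h hn0 hφ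
          (fun v => hP' _ (hφS v)) hrank').2
        rwa [Nat.sub_self, zero_add] at h2
      · exact crep_rank hy' hn' hn0 hΔ'.2 hφ (fun v => hP' _ (hφS v)) (fun v => h _ (hφS v)) hrank'
          (by omega) (by omega)
      · by_contra hcon
        have := comm_N hy' hn' (by omega) hΔ' hklt hφ (fun v => hP' _ (hφS v)) hrank' hcon
        omega
    · by_contra hcon
      obtain ⟨j, hj, h⟩ := hasC_plateau hy' hn' hi (hC hS hcon)
      obtain ⟨a, ha, p, hp, hlt⟩ := hdeg j hj
      exact absurd hlt (not_lt.2 (h a ha p hp))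
    · by_contra hcon
      have hC' : HasC hy' hn' hi (Set.range f) 1 := by
        have hS : S.Finite := by
          rw [← hf]
          exact Set.finite_range f
        rw [hf]
        exact hC hS hcon
      obtain ⟨j, hj, h⟩ := random_plateau hy' hn' hi hw hw1 hs (by omega) hC'
      obtain ⟨a, ha, p, hp, hlt⟩ := hdeg j hj
      exact absurd hlt (not_lt.2 (h a ha p hp))
  have h2 := IM.numDimLt_img hy hy' hn hn' π hπ (by omega) h1
  obtain ⟨m, hm, ω, hω0, hω⟩ := NV.nonvanishing hy hn hn0 hΔ.2 hpsef h2 hq
  exact ⟨⟨m, hm, ω, hω0, hω⟩, h2, abundance_zero hy hn hn0 hΔ h2 hm hω hω0⟩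

end Pool.Agent.Results.MP_66b48b_ag.NonvanishingSelfMaps
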