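import Pool.Agent.T2h13.AF.NuC
import Pool.Agent.T2h13.LG.Ab8
import Pool.Agent.T2h13.LG.Hom

/-!
# Weak non-vanishing and abundance for log canonical pairs dominated by fibrations of open varieties

Let `V°` be an open variety (a variety with a boundary `B_V`) of dimension `n` whose logarithmic
canonical forms separate less than `g` generic points. For instance `V°` is the complement of a
hypersurface with normal crossings of degree `e > n` in `P^n`, `g = e - n + 1`; or of a divisor with
normal crossings of degree `e` in a smooth complete intersection `V` with `K_V = O(m)`, `m + e ≥ 0`,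
`g = m + e + 2`.

Let `W° ⇢ V°` be a dominant rational map of open varieties with connected fibres of any dimension
`r ≥ 1`; the boundary `B_W` of `W°` contains the preimage of `B_V`. Let the generic fibre `F°` have few
logarithmic forms, with the bound `h ≥ 1`: for instance, `H⁰(Ω^q(log))` has dimension at most `h` for
`q ≥ 1` (so `h = 1` if `F° = F` is projective, and a Calabi-Yau or irreducible holomorphic symplectic
variety); or, with `h = 1`, `F°` is a torsor under a semiabelian variety, for instance an algebraic
torus; see part 3.

Let `W° ⇢ X°` be a dominant rational map of finite degree to an open variety which is proper in the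
sense that the boundary of `W°` is the preimage of the boundary of `X°` (on all divisors over them).
The map need not be related to the fibration, and need not be the quotient by a group. Let `d` be the
degree over `X` of the image of `W` in `X × V`; the degree of the map itself may be arbitrarily large.
Let `(h + 1) d < g`.

Let `X` be any normal projective variety birational to `X°`, and `Δ` an effective `ℚ`-divisor with
coefficients (at least) `1` along the prime divisors of `X` which are in the boundary of `X°` and which
do not dominate the base `Z` of the fibration of `X` below; `Δ` is arbitrary otherwise. In particular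
`(X, Δ)` may be any log canonical pair with the reduced boundary of `X°` in `Δ`; such pairs are not klt
if the boundary is not empty.

**Theorem.** (1) Let `φ_0, ..., φ_k` be sections of `N (K_G + ∂)`, `N ≥ 1`, where `G` is the foliation by
the fibres of `W ⇢ V` and `∂` the vertical boundary of `W°`, whose ratios are `k` algebraically
independent functions on the generic fibre (for `W° = V° × F°` these may be `N`-fold forms on `F`). If
they are sections of the pull back of `N (K_X + Δ)` to `F`, and if `ν` of this pull back is at most `k`
(or `k = r`), then `κ(K_X + Δ) = ν(K_X + Δ) = n + k`.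

(2) Let `ν(K_F + Γ) ≤ 0` for a boundary `Γ` on `F` and let `φ` be a section of `N (K_F + Γ)`; for instance
`N (K_F + Γ) ~ 0` or `N (K_F + Γ) ≤ 0` on some projective model of `F`, see part 4. If the pull back of
`K_X + Δ` to `F` is at most `K_F + Γ`, and `φ` is not a section of the pull back of `N (K_X + Δ)`, then
`K_X + Δ` is not pseudo-effective, and `κ(K_X + Δ) = ν(K_X + Δ) = -∞`.

So if the generic fibre `(F, Γ)` is a log Calabi-Yau pair with such a form `φ` (for instance if `F°` is
a semiabelian variety, or a Calabi-Yau variety, and `W° = V° × F°`), and the pull back of `K_X + Δ` to `F`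
is at most `K_F + Γ`, then `K_X + Δ` is pseudo-effective if and only if `φ` is a section, and in this case
`κ(K_X + Δ) = ν(K_X + Δ) = n`: a multiple of `K_X + Δ` is linearly equivalent to an effective divisor.
There is no condition on the singularities of `(X, Δ)` along the divisors and subvarieties which do
not dominate `Z`.

`κ` and `ν` are given by their literal definitions, by the growth of the sections of `m (K_X + Δ)`, and
of `m (K_X + Δ) + A` for all effective divisors `A`.

## Proof

The function field of `Z` is the intersection of those of `X` and `V`. The trace on `X` of a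
logarithmic canonical form on `V°` is a logarithmic `n`-form on `X°`. If not all conjugates over `X` of
the map `W ⇢ V` factor through `V`, then its component with the largest number `q` of factors along
the fibres of `W ⇢ V` is a logarithmic `q`-form on `F°`. As there are few of them, there is a linear
relation between the values of the logarithmic canonical forms at at most `(h + 1) d` points of `V`, a
contradiction. So `V` is generically finite over `Z`, and with the boundary `B_Z`, the image of `B_V`, the
variety `Z°` is of logarithmic general type. Every prime divisor over `X` which lies over `B_Z` is in the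
boundary of `X°`: otherwise let `f` be a function on `V` which vanishes at one place over a place of
`B_Z`, and is a unit at the other ones; its norms over `Z` and over `X` are the same up to powers, a
contradiction. The products of the logarithmic pluricanonical forms on `Z°` and of powers of the `φ_j`
have the right orders at all divisors, and their conjugates give sections of multiples of
`K_X + Δ`. The upper bounds come from the restriction to `F`.

The projective case, without boundaries, is `MP_e23cd6_ag.NuZeroFibrations` (with `k = 0`).
-/

set_option autoImplicit false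
set_option linter.overlappingInstances false
set_option maxHeartbeats 4000000
set_option synthInstance.maxHeartbeats 400000

open FF Module Pool.Agent Pool.Agent.W602.GT Pool.Agent.Y172
open Pool.Agent.T2h13.AF (res LeZero nu_zero Tame HorLe rho upE NuLeZero)
open Pool.Agent.T2h13.LG
open Pool.Agent.R887 (LogDisc)

namespace Pool.Agent.Results.MP_66b48b_ag.OpenFibrations

/-- The functions `f` such that `f dx_1 ... dx_n` is a logarithmic canonical form on the open variety
with the function field `E`, the coordinates `x` and the boundary `B` (the set of the prime divisors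
over the variety without centre on it): its values on logarithmic vector fields are regular at all
prime divisors, and its values on regular vector fields too at the prime divisors which are not in
the boundary. -/
def logForms {E : Type} [Field E] [Algebra ℂ E] {n : ℕ} (x : Fin n → E) (B : Place ℂ E → Prop) :
    Set E :=
  {f | ∀ P : Place ℂ E, Divisorial n P → ∀ D : Fin n → Derivation ℂ E E,
    ((∀ i, DerLog P (D i)) ∨ (¬ B P ∧ ∀ i, DerReg P (D i))) →
    P.Reg ((Matrix.of fun i j => D i (x j) : Matrix (Fin n) (Fin n) E).det * f)}

/-- The logarithmic canonical forms separate less than `g` generic points: a linear relation between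
the values of all logarithmic canonical forms at less than `g` different dominant points of `V`, with
values in an algebraically closed field, is trivial. -/
def Separates {E : Type} [Field E] [Algebra ℂ E] {n : ℕ} (x : Fin n → E) (B : Place ℂ E → Prop)
    (g : ℕ) : Prop :=
  ∀ (Ω : Type) [Field Ω] [Algebra ℂ Ω] [IsAlgClosed Ω] (A : Finset (E →ₐ[ℂ] Ω)), A.card < g →
    ∀ c : (E →ₐ[ℂ] Ω) → Ω, (∀ f ∈ logForms x B, ∑ σ ∈ A, c σ * σ f = 0) →
      ∀ σ ∈ A, c σ = 0

/-- The place of `K` with the order function `o` lies over the place `P` of `L`, with the ramification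
index `e`. -/
def Above {K L : Type} [Field K] [Field L] [Algebra ℂ L] [Algebra L K] (o : K → ℤ) (P : Place ℂ L)
    (e : ℕ) : Prop :=
  0 < e ∧ ∀ f : L, o (algebraMap L K f) = e * P.ord f

/-- `W° ⇢ V°` is a dominant rational map with connected fibres from an open variety of dimension
`n + r` to an open variety of dimension `n` with the coordinates `x`; `K` and `E` are the function
fields, and `BW` and `BV` the boundaries; the boundary of `W°` contains the preimage of the boundary
of `V°`. -/
structure OpenFibration (n r : ℕ) {K : Type} [Field K] [Algebra ℂ K] (E : IntermediateField ℂ K)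
    (x : Fin n → E) (BV : Place ℂ E → Prop) (BW : Place ℂ K → Prop) : Prop where
  ess : Algebra.EssFiniteType ℂ K
  total : Algebra.trdeg ℂ K = (n + r : ℕ)
  base : Algebra.trdeg ℂ E = n
  closed : ∀ z : K, IsAlgebraic E z → z ∈ E
  coord : IsTranscendenceBasis ℂ x
  boundary : ∀ (R : Place ℂ E) (Q : Place ℂ K) (e : ℕ), Above Q.ord R e → BV R → BW Q

/-- The map `W° ⇢ X°` is proper: the boundary of `W°` is the preimage of the boundary of `X°`. -/
def Proper {K L : Type} [Field K] [Algebra ℂ K] [Field L] [Algebra ℂ L] [Algebra L K]
    (BX : Place ℂ L → Prop) (BW : Place ℂ K → Prop) : Prop :=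
  ∀ (P : Place ℂ L) (Q : Place ℂ K) (e : ℕ), Above Q.ord P e → (BX P ↔ BW Q)

/-- The degree over `X` of the image of `W` in `X × V`, where `L ⊆ K` is the function field of `X`,
`K` the one of `W` and `E ⊆ K` the one of `V`. -/
noncomputable def degree (L : Type) {K : Type} [Field L] [Field K] [Algebra ℂ K] [Algebra L K]
    (E : IntermediateField ℂ K) : ℕ :=
  finrank L (IntermediateField.adjoin L (E : Set K))

section

variable {K L : Type} [Field K] [Algebra ℂ K] [Field L] [Algebra ℂ L] [Algebra L K] {N' : ℕ}

/-- The coefficient of `Δ` is at least `1` along the prime divisors of `X` in the boundary which do not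
dominate `Z`: some function on `X` which comes from `V` has a zero or pole there. -/
def ContainsBoundary (E : IntermediateField ℂ K) (BX : Place ℂ L → Prop) (y : Fin (N' + 1) → L)
    (Δ : Place ℂ L → ℚ) : Prop :=
  ∀ P, IsPrimeDivisor y P → BX P → (∃ z : L, algebraMap L K z ∈ E ∧ P.ord z ≠ 0) → 1 ≤ Δ P

/-- The restriction to the generic fibre `F` of the pull back of `K_X + Δ` is at most `K_F + Γ`: the
product of the ramification index and of the log discrepancy of `(X, Δ)` along the image of a prime
divisor `v` over `F` is at least `1 - Γ v`. Here `w` is the dimension of `X`. -/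
def PullLe (E : IntermediateField ℂ K) (r w : ℕ) (Γ : Place E K → ℚ) (y : Fin (N' + 1) → L)
    (Δ : Place ℂ L → ℚ) : Prop :=
  ∀ v : Place E K, Divisorial r v → ∀ (P : Place ℂ L) (e : ℕ), Above v.ord P e →
    ∃ α : ℚ, LogDisc y w Δ P α ∧ 1 - Γ v ≤ e * α

/-- The form `φ` is a section of the restriction to `F` of the pull back of `N (K_X + Δ)`: its order is
at least `N (e (1 - Δ P) - 1)` along the prime divisors `v` of `F` which lie over a prime divisor `P`
of `X` with the ramification index `e`. -/
def PullSection (E : IntermediateField ℂ K) (r N : ℕ) (φ : (Fin r → Derivation E K K) → K)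
    (y : Fin (N' + 1) → L) (Δ : Place ℂ L → ℚ) : Prop :=
  ∀ v : Place E K, ∀ (P : Place ℂ L) (e : ℕ), IsPrimeDivisor y P → Above v.ord P e →
    ∀ U : Fin r → Derivation E K K, (∀ a, DerReg v (U a)) →
      φ U = 0 ∨ (N : ℚ) * (e * (1 - Δ P) - 1) ≤ v.ord (φ U)

end

theorem hX_iff {E : Type} [Field E] [Algebra ℂ E] {n : ℕ} (x : Fin n → E) (B : Place ℂ E → Prop) :
    N145.SX.HX x B = logForms x B := by
  ext f
  constructor
  · intro h P hP D hD
    rcases hD with hD | ⟨hB, hD⟩
    · exact (h P hP).1 D hD
    · exact (h P hP).2 hB D hD
  · intro h P hP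
    exact ⟨fun D hD => h P hP D (Or.inl hD), fun hB D hD => h P hP D (Or.inr ⟨hB, hD⟩)⟩

theorem sep_iff {E : Type} [Field E] [Algebra ℂ E] {n : ℕ} (x : Fin n → E) (B : Place ℂ E → Prop)
    (g : ℕ) : N145.SX.SepX x B g ↔ Separates x B g := by
  unfold N145.SX.SepX Separates
  rw [hX_iff]

theorem tame_iff {K L : Type} [Field K] [Algebra ℂ K] [Field L] [Algebra ℂ L] [Algebra L K]
    [IsScalarTower ℂ L K] {N' : ℕ} (E : IntermediateField ℂ K) (r N : ℕ)
    (φ : (Fin r → Derivation E K K) → K) (y : Fin (N' + 1) → L) (Δ : Place ℂ L → ℚ) :
    Tame E y Δ r N φ ↔ PullSection E r N φ y Δ := by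
  constructor
  · intro h v P e hP hv U hU
    refine h (res v) P e hP hv (fun z hz => ?_) U hU
    by_cases hz0 : z = 0
    · rw [hz0]
      exact v.ord_zero
    · have h1 := v.ord_const (c := (⟨z, hz⟩ : E)) fun h => hz0 (congrArg Subtype.val h)
      exact h1
  · intro h Q P e hP hQ hE U hU
    exact h (upE Q hE) P e hP hQ U hU

/-- Any `h + 1` logarithmic forms of the same positive degree on the open generic fibre with the
boundary `B` are linearly dependent: `h⁰(Ω^q(log)) ≤ h` for all `q ≥ 1`. -/
def HodgeLe {K : Type} [Field K] [Algebra ℂ K] (E : IntermediateField ℂ K) (r : ℕ)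
    (B : Place E K → Prop) (h : ℕ) : Prop :=
  ∀ (q : ℕ), 0 < q → ∀ φ : Fin (h + 1) → (Derivation E K K) [⋀^Fin q]→ₗ[K] K,
    (∀ i, LogForm E r B (φ i)) → ¬ LinearIndependent E φ

/-- **Abundance for pairs dominated by fibrations of open varieties.** Let `W° ⇢ V°` be a fibration of
open varieties with fibres of dimension `r ≥ 1` over an open variety of dimension `n`. (1) Let the
logarithmic canonical forms of `V°` separate less than `g` generic points, and let the generic fibre
`F°` have few logarithmic forms, with the bound `h ≥ 1`. Let `L ⊆ K` be the function field of a normal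
projective variety `X` such that the extension is finite, and let `(h + 1) d < g`, where `d` is the
degree over `X` of the image of `W` in `X × V`; let `BX` be the boundary of an open variety `X°` with
this function field such that the map `W° ⇢ X°` is proper, and let `Δ` be an effective `ℚ`-divisor on
`X` which contains the part of the boundary which does not dominate the base. Let `φ 0, ..., φ k` be
sections of `N (K_G + ∂)`, `N ≥ 1`, with algebraically independent ratios, where `G` is the foliation by
the fibres of `W ⇢ V` and `∂` the vertical boundary of `W°`, which are sections of the restriction to `F`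
of the pull back of `N (K_X + Δ)`, and let `k = r` or let this pull back be at most `K_F + Γ` with
`ν (K_F + Γ) ≤ k`. Then `κ (K_X + Δ) = ν (K_X + Δ) = n + k`. (2) Let `ν (K_F + Γ) ≤ 0`, and let `φ` be a
section of `N (K_F + Γ)`. If the pull back of `K_X + Δ` to `F` is at most `K_F + Γ` and `φ` is not a section
of the pull back of `N (K_X + Δ)`, then `κ (K_X + Δ) = ν (K_X + Δ) = -∞`. (3) If any `h + 1`
logarithmic forms of the same positive degree on `F°` are linearly dependent, then `F°` has few
logarithmic forms, with the bound `h`; if `F°` is almost homogeneous, for instance a torsor under a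
semiabelian variety, then with the bound `1`. (4) If `N (K_F + Γ) ≤ 0` on a projective model of `F`, then `ν (K_F + Γ) ≤ 0`. -/
theorem result : ∀ (n r N : ℕ) (K : Type) [Field K] [Algebra ℂ K] (E : IntermediateField ℂ K)
    (x : Fin n → E) (BV : Place ℂ E → Prop) (BW : Place ℂ K → Prop),
    OpenFibration n r E x BV BW → 1 ≤ r → 1 ≤ N →
    (∀ g h : ℕ, Separates x BV g → 1 ≤ h → FewLog E r (fun w => BW (res w)) h →
      ∀ (L : Type) [Field L] [Algebra ℂ L] [Algebra L K] [IsScalarTower ℂ L K]
        [FiniteDimensional L K], (h + 1) * degree L E < g →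
        ∀ BX : Place ℂ L → Prop, Proper BX BW →
        ∀ (N' : ℕ) (y : Fin (N' + 1) → L), NormalModel y → ∀ Δ, Effective y Δ →
        ContainsBoundary E BX y Δ →
        ∀ (k : ℕ) (φ : Fin (k + 1) → (Fin r → Derivation E K K) → K),
          (∀ j, FolSec E (n + r) r N BW (φ j)) → ∀ D, φ 0 D ≠ 0 →
          (AlgebraicIndependent E fun i : Fin k => φ i.succ D / φ 0 D) →
          (∀ j, PullSection E r N (φ j) y Δ) →
          (k = r ∨ ∃ Γ : Place E K → ℚ, NuLe E r Γ k ∧ PullLe E r (n + r) Γ y Δ) →
          kodairaDim y (n + r) Δ = ((n + k : ℕ) : WithBot ℕ) ∧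
            ∀ A, Effective y A → Integral y A →
              numericalDim y (n + r) Δ A = ((n + k : ℕ) : EReal)) ∧
    (∀ (Γ : Place E K → ℚ) (φ : (Fin r → Derivation E K K) → K), NuLe E r Γ 0 →
      FibOrd E r N Γ φ →
      ∀ (L : Type) [Field L] [Algebra ℂ L] [Algebra L K] [IsScalarTower ℂ L K]
        [FiniteDimensional L K] (N' : ℕ) (y : Fin (N' + 1) → L), NormalModel y →
        ∀ Δ : Place ℂ L → ℚ, PullLe E r (n + r) Γ y Δ → ¬ PullSection E r N φ y Δ →
          kodairaDim y (n + r) Δ = ⊥ ∧ ∀ A, Effective y A → numericalDim y (n + r) Δ A = ⊥) ∧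
    (∀ B : Place E K → Prop, (∀ h : ℕ, HodgeLe E r B h → FewLog E r B h) ∧
      ∀ (M : ℕ) (z : Fin (M + 1) → K) (U : Fin r → Derivation E K K),
        LogAlmostHom E B z U → FewLog E r B 1) ∧
    ∀ (M : ℕ) (Γ : Place E K → ℚ) (z : Fin (M + 1) → K) (φ : (Fin r → Derivation E K K) → K),
      LeZero E r N Γ z φ → NuLe E r Γ 0 := by
  intro n r N K _ _ E x BV BW hF hr hN
  have hess := hF.ess
  have hessE : Algebra.EssFiniteType ℂ E := Pool.Agent.N999.SX.ess_any E
  refine ⟨?_, ?_, ?_, ?_⟩
  · intro g h hs hh hf L _ _ _ _ _ hg BX hBX N' y hy Δ hΔ hΔB k φ hφ D hD hφi hT hup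
    have hessL : Algebra.EssFiniteType ℂ L := hy.ess
    have hBL : ∀ Q : Place ℂ K, BX (bel L Q) ↔ BW Q := fun Q => hBX (bel L Q) Q _ (over_bel L Q)
    have hB : ImgBd E BV BX := fun Q R e hR hQR => (hBL Q).2 (hF.boundary R Q e hQR hR)
    have hfew : FewLog E r (fun w => BX (bel L (res w))) h := by
      have h1 : (fun w : Place E K => BX (bel L (res w))) = fun w => BW (res w) :=
        funext fun w => propext (hBL (res w))
      rw [h1]
      exact hf
    have hφ' : ∀ j, FolSec E (n + r) r N (fun Q => BX (bel L Q)) (φ j) := by
      have h1 : (fun Q : Place ℂ K => BX (bel L Q)) = BW := funext fun Q => propext (hBL Q)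
      rw [h1]
      exact hφ
    exact dims_eq (L := L) hr hF.total hF.base hF.closed hF.coord hB ((sep_iff x BV g).2 hs) hh hg
      hfew hy hΔ hΔB hN hφ' hD hφi (fun j => (tame_iff E r N (φ j) y Δ).2 (hT j))
      (hup.imp_right fun ⟨Γ, h1, h2⟩ => ⟨Γ, h1, fun Q hQ P e hP => h2 Q hQ P e hP⟩)
  · intro Γ φ hν hφ L _ _ _ _ _ N' y hy Δ hH hT
    have hessL : Algebra.EssFiniteType ℂ L := hy.ess
    have hν' : NuLeZero E r Γ := fun S => by
      obtain ⟨C, hC⟩ := hν S
      exact ⟨C, fun m l ω hm hω hl => by simpa using hC m l ω hm hω hl⟩
    have hT' : ¬ Tame E y Δ r N φ := fun h => hT ((tame_iff E r N φ y Δ).1 h)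
    have key : ∀ A, Effective y A → kodairaDim y (n + r) Δ = ⊥ ∧
        numericalDim y (n + r) Δ A = ⊥ := by
      intro A hA
      refine not_psef hA fun hcon => ?_
      obtain ⟨m1, hm1⟩ := no_sections hr hF.total hF.base hν' hy hA
        (fun Q hQ P e hP => hH Q hQ P e hP) hN hφ.1 hφ.2 hT'
      obtain ⟨m', hm', s', hs', hs0⟩ := hcon m1
      exact hs0 (hm1 m' hm' s' hs')
    have hzero : Effective y (0 : Place ℂ L → ℚ) :=
      ⟨fun _ _ => le_rfl, Set.finite_empty.subset (by rintro P ⟨-, h⟩; exact h rfl)⟩
    exact ⟨(key 0 hzero).1, fun A hA => (key A hA).2⟩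
  · exact fun B => ⟨fun h hf => few_of_forms hF.total hF.base hf,
      fun M z U hM => few_of_hom hF.total hF.base hF.closed hM⟩
  · intro M Γ z φ hz S
    obtain ⟨C, hC⟩ := nu_zero hr hF.total hF.base hN hz S
    exact ⟨C, fun m l ω hm hω hl => by simpa using hC m l ω hm hω hl⟩

end Pool.Agent.Results.MP_66b48b_ag.OpenFibrations
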