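import Pool.Agent.T2h13.LG.Norm
import Pool.Agent.T2h13.LG.Hom
import Pool.Agent.N999.SX.FG

/-!
# Structure of the open varieties dominated by a fibration with few logarithmic forms

Let `V°` be an open variety (a variety with a boundary `B_V`) of dimension `n` whose logarithmic
canonical forms separate less than `g` generic points; for instance the complement of a divisor with
normal crossings of degree `e` in a smooth complete intersection `V` with `K_V = O(m)`, `m + e ≥ 0`,
`g = m + e + 2`. Let `W° ⇢ V°` be a dominant rational map of open varieties with connected fibres of any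
dimension `r`, whose generic fibre has few logarithmic forms, with the bound `h ≥ 1`; see parts 2 and 3.
Let `W° ⇢ X°` be a dominant rational map of finite degree which is proper in the sense that the
boundary of `W°` is the preimage of the boundary of `X°`; the map need not be related to the
fibration. Let `(h + 1) d < g`, where `d` is the degree over `X` of the image of `W` in `X × V`; the
degree of `W ⇢ X` may be arbitrarily large.

**Theorem (part 1).** There is a dominant rational map with connected fibres `X° ⇢ Z°` of open varieties,
`dim Z = n`, such that `W ⇢ X` maps the fibres of `W ⇢ V` onto the fibres of `X ⇢ Z`, and `Z°` is of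
logarithmic general type. The function field of `Z` is the intersection of those of `X` and `V`, and `V`
is generically finite over `Z`. The boundary `B_Z` of `Z°` is the image of the boundary of `V°`, and all
prime divisors over `X` which are mapped to the boundary of `Z°` are in the boundary of `X°`.

## Weak non-vanishing

Let `(X, Δ)` be a projective log canonical pair, `Δ` an `ℝ`-divisor, such that the prime divisors over
`X` which are mapped to `B_Z` have the log discrepancy zero (for instance let `Δ` contain the reduced
boundary of `X°`, on a log resolution), and let `r ≤ 3`. Let `K_X + Δ` be pseudo-effective. The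
restriction to the general fibre `F` of `X ⇢ Z` is pseudo-effective, and `ℝ`-effective since
`dim F ≤ 3`; by the theorems on models in dimension three `Δ` is a convex combination of `ℚ`-divisors
`Δ_i` with the same properties and `κ(K_F + Δ_i) ≥ 0`. Then
`κ(K_X + Δ_i) ≥ κ(K_F + Δ_i) + dim Z ≥ dim X - r` by the subadditivity of the logarithmic Kodaira
dimension over a base of logarithmic general type (Fujino, Kovács and Patakfalvi). So Q1 has a
positive answer for these pairs of any dimension, by theorems which are not formalised here; the case
`ν(K_F + Δ) = κ(K_F + Δ)`, `W° = V° × F°`, with any `r`, is proved in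
`MP_66b48b_ag.OpenFibrations` without them.

## Proof

The trace on `X` of a logarithmic canonical form `f` on `V°` is a logarithmic `n`-form on `X°`. Its
pullback to `W` is the sum of the pullbacks of `f` under the `d` conjugates of the map `W ⇢ V`. Suppose
that not all conjugates factor through `V`, and consider the largest number `q ≥ 1` such that the form
`σ^* f` has a nonzero component with `q` factors along the fibres of `W ⇢ V`, for some `f` and some
conjugate `σ`. This component of the trace is a logarithmic `q`-form on the generic fibre. There are few
of them, so there is a linear relation between the values of the logarithmic canonical forms at at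
most `(h + 1) d` points of `V`, with coefficients independent of `f`. Since these points are separated,
one of the conjugates is constant on the fibres, a contradiction. So the function field of `V` is
algebraic over `ℂ(Z) = ℂ(X) ∩ ℂ(V)`, and the traces to `Z` of the forms on `V°` are logarithmic forms which
separate general points. Let `P` be a place of `X` over a place `R` of `B_Z`, and let `R'` be a place in
`B_V` over `R`. Let `f` be a function on `V` which vanishes at `R'` and is a unit at the other places over
`R`. The minimal polynomials of `f` over `ℂ(Z)` and over `ℂ(X)` agree, so the norm of `f` to `X` vanishes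
at `P`, and `f` vanishes at a place `Q` of `W` over `P`. Then `Q` lies over `R'`, so `Q` is in the
boundary of `W°` and `P` in the boundary of `X°`.

The projective case, without boundaries, is `MP_e23cd6_ag.FibrationsFewForms`.
-/

set_option autoImplicit false
set_option linter.overlappingInstances false
set_option maxHeartbeats 4000000
set_option synthInstance.maxHeartbeats 400000

open FF Module Pool.Agent Pool.Agent.W602.GT Pool.Agent.Y172
open Pool.Agent.T2h13.AF (res base baseInc)
open Pool.Agent.T2h13.LG

namespace Pool.Agent.Results.MP_66b48b_ag.OpenStructure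

/-- The functions `f` such that `f dx_1 ... dx_n` is a logarithmic canonical form on the open variety
with the function field `E`, the coordinates `x` and the boundary `B` (the set of the prime divisors
over the variety without centre on it): its values on logarithmic vector fields are regular at all
prime divisors, and its values on regular vector fields too at the prime divisors which are not in
the boundary. -/
def logForms {E : Type} [Field E] [Algebra ℂ E] {n : ℕ} (x : Fin n → E) (B : Place ℂ E → Prop) :
    Set E :=
  {f | ∀ P : Place ℂ E, Divisorial n P → ∀ D : Fin n → Derivation ℂ E E,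
    ((∀ i, DerLog P (D i)) ∨ (¬ B P ∧ ∀ i, DerReg P (D i))) →
    P.Reg ((Matrix.of fun i j => D i (x j) : Matrix (Fin n) (Fin n) E).det * f)}

/-- The logarithmic canonical forms separate less than `g` generic points: a linear relation between
the values of all logarithmic canonical forms at less than `g` different dominant points of `V`, with
values in an algebraically closed field, is trivial. -/
def Separates {E : Type} [Field E] [Algebra ℂ E] {n : ℕ} (x : Fin n → E) (B : Place ℂ E → Prop)
    (g : ℕ) : Prop :=
  ∀ (Ω : Type) [Field Ω] [Algebra ℂ Ω] [IsAlgClosed Ω] (A : Finset (E →ₐ[ℂ] Ω)), A.card < g →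
    ∀ c : (E →ₐ[ℂ] Ω) → Ω, (∀ f ∈ logForms x B, ∑ σ ∈ A, c σ * σ f = 0) →
      ∀ σ ∈ A, c σ = 0

/-- The place of `K` with the order function `o` lies over the place `P` of `L`, with the ramification
index `e`. -/
def Above {K L : Type} [Field K] [Field L] [Algebra ℂ L] [Algebra L K] (o : K → ℤ) (P : Place ℂ L)
    (e : ℕ) : Prop :=
  0 < e ∧ ∀ f : L, o (algebraMap L K f) = e * P.ord f

/-- `W° ⇢ V°` is a dominant rational map with connected fibres from an open variety of dimension
`n + r` to an open variety of dimension `n` with the coordinates `x`; `K` and `E` are the function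
fields, and `BW` and `BV` the boundaries; the boundary of `W°` contains the preimage of the boundary
of `V°`. -/
structure OpenFibration (n r : ℕ) {K : Type} [Field K] [Algebra ℂ K] (E : IntermediateField ℂ K)
    (x : Fin n → E) (BV : Place ℂ E → Prop) (BW : Place ℂ K → Prop) : Prop where
  ess : Algebra.EssFiniteType ℂ K
  total : Algebra.trdeg ℂ K = (n + r : ℕ)
  base : Algebra.trdeg ℂ E = n
  closed : ∀ z : K, IsAlgebraic E z → z ∈ E
  coord : IsTranscendenceBasis ℂ x
  boundary : ∀ (R : Place ℂ E) (Q : Place ℂ K) (e : ℕ), Above Q.ord R e → BV R → BW Q

/-- The map `W° ⇢ X°` is proper: the boundary of `W°` is the preimage of the boundary of `X°`. -/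
def Proper {K L : Type} [Field K] [Algebra ℂ K] [Field L] [Algebra ℂ L] [Algebra L K]
    (BX : Place ℂ L → Prop) (BW : Place ℂ K → Prop) : Prop :=
  ∀ (P : Place ℂ L) (Q : Place ℂ K) (e : ℕ), Above Q.ord P e → (BX P ↔ BW Q)

/-- The degree over `X` of the image of `W` in `X × V`, where `L ⊆ K` is the function field of `X`,
`K` the one of `W` and `E ⊆ K` the one of `V`. -/
noncomputable def degree (L : Type) {K : Type} [Field L] [Field K] [Algebra ℂ K] [Algebra L K]
    (E : IntermediateField ℂ K) : ℕ :=
  finrank L (IntermediateField.adjoin L (E : Set K))

/-- The open variety of dimension `n` with the function field `L` and the boundary `B` has a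
logarithmic Kodaira dimension `≥ h`: for some `N > 0` there are `h + 1` sections of `N (K + B)`, that is,
logarithmic `N`-canonical forms whose poles are in the boundary, whose ratios are `h` algebraically
independent functions. -/
def LogKodairaGe (L : Type) [Field L] [Algebra ℂ L] (n : ℕ) (B : Place ℂ L → Prop) (h : ℕ) : Prop :=
  ∃ N : ℕ, 0 < N ∧ ∃ ω : Fin (h + 1) → (Fin n → Derivation ℂ L L) → L,
    (∀ j, IsPluri N (ω j) ∧ (∀ P : Place ℂ L, Divisorial n P → LogAt P (ω j)) ∧
      ∀ P : Place ℂ L, Divisorial n P → ¬ B P → RegAt P (ω j)) ∧
    ∃ D, ω 0 D ≠ 0 ∧ AlgebraicIndependent ℂ (fun i : Fin h => ω i.succ D / ω 0 D)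

/-- The fibration `W° ⇢ V°` descends to a fibration of `X°` over an open variety `Z°` of logarithmic
general type of the dimension `n` of `V`: the intersection `Z` of the function fields of `X` and `V` is
algebraically closed in the function field of `X`, the function field of `V` is algebraic over `Z`, and
the logarithmic Kodaira dimension of `Z°` is `n` for the boundary `BZ` which is the image of the
boundary `BV` of `V°`; the places of `X` over the boundary of `Z°` are in the boundary `BX` of `X°`. -/
def FibredOverLogGeneralType (n : ℕ) (L : Type) {K : Type} [Field L] [Field K] [Algebra ℂ L]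
    [Algebra ℂ K] [Algebra L K] (E : IntermediateField ℂ K) (BV : Place ℂ E → Prop)
    (BX : Place ℂ L → Prop) : Prop :=
  ∃ (Z : IntermediateField ℂ L) (BZ : Place ℂ Z → Prop),
    (∀ z : L, z ∈ Z ↔ algebraMap L K z ∈ E) ∧ (∀ z : L, IsAlgebraic Z z → z ∈ Z) ∧
    (∀ e ∈ E, IsAlgebraic Z e) ∧ Algebra.trdeg ℂ Z = n ∧
    (∀ R : Place ℂ Z, BZ R ↔ ∃ (R' : Place ℂ E) (e : ℕ), BV R' ∧ 0 < e ∧
      ∀ (f : Z) (f' : E), (f' : K) = algebraMap L K f → R'.ord f' = e * R.ord f) ∧
    LogKodairaGe Z n BZ n ∧
    ∀ (R : Place ℂ Z) (P : Place ℂ L) (e : ℕ), Above P.ord R e → BZ R → BX P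

/-- Any `h + 1` logarithmic forms of the same positive degree on the open generic fibre with the
boundary `B` are linearly dependent: `h⁰(Ω^q(log)) ≤ h` for all `q ≥ 1`. -/
def HodgeLe {K : Type} [Field K] [Algebra ℂ K] (E : IntermediateField ℂ K) (r : ℕ)
    (B : Place E K → Prop) (h : ℕ) : Prop :=
  ∀ (q : ℕ), 0 < q → ∀ φ : Fin (h + 1) → (Derivation E K K) [⋀^Fin q]→ₗ[K] K,
    (∀ i, LogForm E r B (φ i)) → ¬ LinearIndependent E φ

theorem hX_iff {E : Type} [Field E] [Algebra ℂ E] {n : ℕ} (x : Fin n → E) (B : Place ℂ E → Prop) :
    N145.SX.HX x B = logForms x B := by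
  ext f
  constructor
  · intro h P hP D hD
    rcases hD with hD | ⟨hB, hD⟩
    · exact (h P hP).1 D hD
    · exact (h P hP).2 hB D hD
  · intro h P hP
    exact ⟨fun D hD => h P hP D (Or.inl hD), fun hB D hD => h P hP D (Or.inr ⟨hB, hD⟩)⟩

theorem sep_iff {E : Type} [Field E] [Algebra ℂ E] {n : ℕ} (x : Fin n → E) (B : Place ℂ E → Prop)
    (g : ℕ) : N145.SX.SepX x B g ↔ Separates x B g := by
  unfold N145.SX.SepX Separates
  rw [hX_iff]

/-- **Structure of the open varieties dominated by a fibration with few logarithmic forms.** Let
`W° ⇢ V°` be a fibration of open varieties, `dim V = n`, with fibres of dimension `r`. (1) Let the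
logarithmic canonical forms of `V°` separate less than `g` generic points, and let the generic fibre
`F°` have few logarithmic forms, with the bound `h ≥ 1`. Let `L ⊆ K` be the function field of a
variety `X` such that the extension is finite, and let `(h + 1) d < g`, where `d` is the degree over
`X` of the image of `W` in `X × V`; let `BX` be the boundary of an open variety `X°` with this function
field such that the map `W° ⇢ X°` is proper. Then `X°` is fibred over an open variety `Z°` of
logarithmic general type of dimension `n`, the boundary of `Z°` is the image of the boundary of `V°`,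
and its preimage in `X` is contained in the boundary of `X°`. (2) If any `h + 1` logarithmic forms of
the same positive degree on `F°` are linearly dependent, then `F°` has few logarithmic forms, with the
bound `h`. (3) If `F°` is almost homogeneous, for instance a torsor under a semiabelian variety, then
`F°` has few logarithmic forms, with the bound `1`. -/
theorem result : ∀ (n r : ℕ) (K : Type) [Field K] [Algebra ℂ K] (E : IntermediateField ℂ K)
    (x : Fin n → E) (BV : Place ℂ E → Prop) (BW : Place ℂ K → Prop),
    OpenFibration n r E x BV BW →
    (∀ g h : ℕ, Separates x BV g → 1 ≤ h → FewLog E r (fun w => BW (res w)) h →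
      ∀ (L : Type) [Field L] [Algebra ℂ L] [Algebra L K] [IsScalarTower ℂ L K]
        [FiniteDimensional L K], (h + 1) * degree L E < g →
        ∀ BX : Place ℂ L → Prop, Proper BX BW → FibredOverLogGeneralType n L E BV BX) ∧
    (∀ (B : Place E K → Prop) (h : ℕ), HodgeLe E r B h → FewLog E r B h) ∧
    ∀ (B : Place E K → Prop) (M : ℕ) (z : Fin (M + 1) → K) (U : Fin r → Derivation E K K),
      LogAlmostHom E B z U → FewLog E r B 1 := by
  intro n r K _ _ E x BV BW hF
  have hess := hF.ess
  have hessE : Algebra.EssFiniteType ℂ E := Pool.Agent.N999.SX.ess_any E
  refine ⟨?_, fun B h hf => few_of_forms hF.total hF.base hf,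
    fun B M z U hM => few_of_hom hF.total hF.base hF.closed hM⟩
  intro g h hs hh hf L _ _ _ _ _ hg BX hBX
  have hBL : ∀ Q : Place ℂ K, BX (bel L Q) ↔ BW Q := fun Q => hBX (bel L Q) Q _ (over_bel L Q)
  have hB : ImgBd E BV BX := fun Q R e hR hQR => (hBL Q).2 (hF.boundary R Q e hQR hR)
  have hfew : FewLog E r (fun w => BX (bel L (res w))) h := by
    have h1 : (fun w : Place E K => BX (bel L (res w))) = fun w => BW (res w) :=
      funext fun w => propext (hBL (res w))
    rw [h1]
    exact hf
  obtain ⟨h1, h2, h3, h4⟩ := str_few (L := L) hF.total hF.base hF.closed hF.coord hB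
    ((sep_iff x BV g).2 hs) hh hg hfew
  have hsep := fun σ e he => sep2 hF.total hF.base hF.coord hB ((sep_iff x BV g).2 hs) hg hfew σ e he
  refine ⟨base L E, BZ L E BV, fun z => Iff.rfl, h1, h3, h2, fun R => ?_, ?_, ?_⟩
  · constructor
    · rintro ⟨R', e, hR', he, hR⟩
      refine ⟨R', e, hR', he, fun f f' hf' => ?_⟩
      have h5 : f' = baseInc L E f := Subtype.ext hf'
      rw [h5, hR]
    · rintro ⟨R', e, hR', he, hR⟩
      exact ⟨R', e, hR', he, fun f => hR f (baseInc L E f) rfl⟩
  · obtain ⟨N, hN, ω, hω, hω2⟩ := h4
    exact ⟨N, hN, ω, fun j => hω j, hω2⟩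
  · rintro R P e hPR ⟨R', e3, hR', he3, hR'R⟩
    obtain ⟨Q', e4, e5, hQ', hQ''⟩ := over_bd hF.closed hsep he3 hR'R hPR
    have h7 := hB Q' R' e5 hR' hQ''
    rwa [(bel_eq L hQ').1] at h7

end Pool.Agent.Results.MP_66b48b_ag.OpenStructure
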